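import Pool.Agent.H75.OM.TA

/-! DNF: a function of few variables is a formula of depth two (board omn_modules, MP_0f8dca_lc). -/

set_option autoImplicit false

namespace Pool.Agent.H1.OMN

open Finset Pool.Agent.H6.NB Pool.Agent.H75.OM

theorem pf_DNF : Pool.Agent.H75.OM.T_DNF := by
  classical
  intro V A S f hS hf
  let ex : (A → Bool) → V → Bool := fun a v => if h : v ∈ A then a ⟨v, h⟩ else false
  have hex : ∀ (a : A → Bool) (v : A), ex a v.1 = a v := fun a v => dif_pos v.2
  let T : Finset (A → Bool) := univ.filter fun a => f (ex a) = true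
  have hT : T.card ≤ S := by
    refine (card_le_univ T).trans ?_
    rw [Fintype.card_fun, Fintype.card_bool, Fintype.card_coe]
    exact hS
  have hA : A.card ≤ S := (Nat.lt_two_pow_self).le.trans hS
  refine ⟨T.card, fun i y => decide (∃ v : A, y v.1 = !((T.equivFin.symm i).1 v)),
    fun _ => false, hT, fun i => ?_, fun y => ?_⟩
  · refine ⟨A.card, fun j y => y (A.equivFin.symm j).1,
      fun j => !((T.equivFin.symm i).1 (A.equivFin.symm j)), hA,
      fun j => Or.inr ⟨(A.equivFin.symm j).1, fun _ => rfl⟩, fun y => ?_⟩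
    rw [decide_eq_true_eq]
    constructor
    · rintro ⟨v, hv⟩
      refine ⟨A.equivFin v, ?_⟩
      simp only [Equiv.symm_apply_apply]
      exact hv
    · rintro ⟨j, hj⟩
      exact ⟨A.equivFin.symm j, hj⟩
  · constructor
    · intro hy
      have h1 : f (ex fun v => y v.1) = true := by
        rw [← hy]
        apply hf
        intro v hv
        exact hex (fun v => y v.1) ⟨v, hv⟩
      have h2 : (fun v : A => y v.1) ∈ T := mem_filter.2 ⟨mem_univ _, h1⟩
      refine ⟨T.equivFin ⟨_, h2⟩, ?_⟩
      simp only [Equiv.symm_apply_apply, decide_eq_false_iff_not]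
      rintro ⟨v, hv⟩
      revert hv
      cases y v.1 <;> simp
    · rintro ⟨i, hi⟩
      simp only [decide_eq_false_iff_not] at hi
      have h1 : f (ex (T.equivFin.symm i).1) = true :=
        (mem_filter.1 (T.equivFin.symm i).2).2
      rw [← h1]
      apply hf
      intro v hv
      rw [hex _ ⟨v, hv⟩]
      by_contra h
      apply hi
      refine ⟨⟨v, hv⟩, ?_⟩
      revert h
      cases y v <;> cases (T.equivFin.symm i).1 ⟨v, hv⟩ <;> simp

end Pool.Agent.H1.OMN
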