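import Pool.Agent.H75.OM.TA
import Pool.Agent.H3.XQ.RIX

/-! RI2: a pair of formulas does not see the copies (board omn_modules, MP_0f8dca_lc). -/

set_option autoImplicit false

namespace Pool.Agent.H1.OMN

open Finset Pool.Agent.H78.XQ Pool.Agent.H6.NB Pool.Agent.H70.OQ Pool.Agent.H70.EH
  Pool.Agent.H70.EI Pool.Agent.H75.OM

theorem pf_RI2 (h1 : Pool.Agent.H70.EH.T_RDI) (h2 : Pool.Agent.H70.EH.T_RCP)
    (h3 : Pool.Agent.H70.EH.T_CHA) (h4 : Pool.Agent.H70.EH.T_PHV)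
    (h5 : Pool.Agent.H70.EH.T_MUV) (h6 : Pool.Agent.H6.NB.T_PHB) (h7 : Pool.Agent.H6.NB.T_PHU)
    (h8 : T_RLP) (h9 : Pool.Agent.H6.NB.T_CLR) (h10 : T_NU4)
    (_h11 : Pool.Agent.H70.EI.T_NU2) (_h12 : Pool.Agent.H78.XQ.T_NUX) : T_RI2 := by
  classical
  intro r l q R n S₂ d₂ w₂ hS hS2 b g h hg hh
  set w : ℝ := ((4 ^ r ^ 2 : ℕ) : ℝ) + w₂ with hw
  set e : ℝ := er (2 ^ 2 ^ r ^ 2) (r + 1) (4 ^ r ^ 2) + er S₂ d₂ w₂ with he
  set I : ℝ := ir (4 ^ r ^ 2) (r + 1) w₂ d₂ with hI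
  obtain ⟨n1, n2, n3, n4⟩ := h10 r l q R n S₂ d₂ w₂ hS hS2 w e I hw he hI
  have hbi : ∀ x : Bool, 0 ≤ bi x ∧ bi x ≤ 1 := by
    intro x
    unfold bi
    split_ifs <;> norm_num
  have hZ : 0 ≤ ∑ P : (Fin (2 * l) → Bool) → VV q → Bool, (∏ u, mv false q (P u)) *
      bi (g P && h P) :=
    Finset.sum_nonneg fun P _ => mul_nonneg
      (Finset.prod_nonneg fun u _ => (h5 false q).1 (P u)) (hbi _).1
  have hr0 : (0 : ℝ) < (1 / 8) ^ r := by positivity
  have h22 : (0 : ℝ) < 2 ^ (2 * 2 ^ r) := by positivity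
  have hsplit : (1 / 8 : ℝ) ^ r / (8 * 2 ^ (2 * 2 ^ r)) = (1 / 8) ^ r / 8 / 2 ^ (2 * 2 ^ r) := by
    rw [div_div]
  have he0 : 0 ≤ e := by
    rw [he]
    unfold er
    positivity
  cases b with
  | false =>
    have c1 := Pool.Agent.H3.XQ.chx_false h3 h5 h6 h7 q l hS.q_eq
    have c2 : Real.exp (-(2 ^ (2 * l) * (1 / 2 ^ l) / 2)) ≤
        (1 / 8) ^ r / (8 * 2 ^ (2 * 2 ^ r)) := by
      rw [hsplit, le_div_iff₀ h22]
      linarith
    have c3 : ∑ P : (Fin (2 * l) → Bool) → VV q → Bool, (∏ u, mv false q (P u)) *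
          bi (g P && h P) -
        ∑ P, (if SayX q l false P then ∏ u, mv false q (P u) else 0) * bi (g P && h P) ≤
        ∑ P : (Fin (2 * l) → Bool) → VV q → Bool, (∏ u, mv false q (P u)) *
          (if SayX q l false P then 0 else 1) := by
      rw [← Finset.sum_sub_distrib]
      refine Finset.sum_le_sum fun P _ => ?_
      have hnn : 0 ≤ ∏ u, mv false q (P u) :=
        Finset.prod_nonneg fun u _ => (h5 false q).1 (P u)
      by_cases hs : SayX q l false P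
      · simp [hs]
      · simp only [hs, if_false, zero_mul, sub_zero, mul_one]
        have := mul_le_mul_of_nonneg_left (hbi (g P && h P)).2 hnn
        linarith
    have c4 : (1 - (1 / 8 : ℝ) ^ r / 8) *
        ∑ P : (Fin (2 * l) → Bool) → VV q → Bool, (∏ u, mv false q (P u)) * bi (g P && h P) ≤
        ∑ P : (Fin (2 * l) → Bool) → VV q → Bool, (∏ u, mv false q (P u)) * bi (g P && h P) :=
      mul_le_of_le_one_left hZ (by linarith)
    linarith
  | true =>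
    have hcard : (Fintype.card (Fin (2 * l) → Bool) : ℝ) = 2 ^ (2 * l) := by
      rw [Fintype.card_fun, Fintype.card_bool, Fintype.card_fin]; push_cast; ring
    have hL12 : ∀ (P : (Fin (2 * l) → Bool) → VV q → Bool) u ρ,
        L12 (rst ρ fun c => bi (g (Function.update P u c) && h (Function.update P u c))) ≤
          I ^ 2 * w ^ 2 *
            mn (rst ρ fun c => bi (g (Function.update P u c) && h (Function.update P u c))) +
          I ^ 2 * ((2 * 2 ^ q) ^ 2 * e) := by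
      intro P u ρ
      have k1 := h9 _ _ _ _ ρ (hg P u)
      have k2 := h9 _ _ _ _ ρ (hh P u)
      have k3 := h8 (VV q) (2 ^ 2 ^ r ^ 2) (r + 1) (4 ^ r ^ 2) S₂ d₂ w₂ _ _
        (Nat.one_le_pow _ _ (by norm_num)) hS2.one k1 k2
      rw [card_VV] at k3
      have k4 : I ^ 2 * w ^ 2 *
            mn (rst ρ fun c => bi (g (Function.update P u c) && h (Function.update P u c))) +
          I ^ 2 * ((2 * 2 ^ q) ^ 2 * e) = I ^ 2 * (w ^ 2 *
            mn (rst ρ fun c => bi (g (Function.update P u c) && h (Function.update P u c))) +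
          (2 * 2 ^ q) ^ 2 * e) := by ring
      rw [k4]
      exact k3
    have hq10 : 100 ≤ q := by
      rw [hS.q_eq]
      omega
    have hcore := Pool.Agent.H48.EH.rin h1 h2
      (Pool.Agent.H17.EH.che h3 h4 h5 h6 h7) h5 (Fin (2 * l) → Bool) q
      (fun P => bi (g P && h P)) (I ^ 2 * w ^ 2) (I ^ 2 * ((2 * 2 ^ q) ^ 2 * e)) true hq10
      (by positivity) n1 (by positivity) (fun P => hbi _) hL12
    rw [hcard] at hcore
    have c5 : (2 : ℝ) ^ (2 * l) * (I ^ 2 * ((2 * 2 ^ q) ^ 2 * e) + 1 / 2 ^ 2 ^ (q - 2)) +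
        Real.exp (-((2 : ℝ) ^ (2 * l) * eps2 q ^ 2 / 64)) ≤
        (1 / 8) ^ r / (8 * 2 ^ (2 * 2 ^ r)) := by
      rw [hsplit, le_div_iff₀ h22]
      linarith
    have c6 : (1 - (1 / 8 : ℝ) ^ r / 8) *
        ∑ P : (Fin (2 * l) → Bool) → VV q → Bool, (∏ u, mv false q (P u)) * bi (g P && h P) ≤
        (1 - 2 ^ (2 * l) * (I ^ 2 * w ^ 2 / √(2 ^ q))) *
        ∑ P : (Fin (2 * l) → Bool) → VV q → Bool, (∏ u, mv false q (P u)) * bi (g P && h P) :=
      mul_le_mul_of_nonneg_right (by linarith) hZ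
    refine le_trans (sub_le_sub c6 c5) (le_trans hcore (le_of_eq ?_))
    refine Finset.sum_congr rfl fun P _ => ?_
    by_cases hs : Says q true P
    · rw [if_pos hs, if_pos ((Pool.Agent.H3.XQ.sayX_true q l P).2 hs)]
    · rw [if_neg hs, if_neg fun h' => hs ((Pool.Agent.H3.XQ.sayX_true q l P).1 h')]

end Pool.Agent.H1.OMN
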